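import Pool.Agent.H27.CN.Avg
import Pool.Agent.H27.CN.Count

/-!
Averaging over blocks and counting, with acceptance probability `1 / A` in place of `1 / 2`.
-/

namespace Pool.Agent.H27.WQ

open Finset
open Pool.Agent.H25.NM
open Pool.Agent.H27.CN (hyb nc_const nc_pi)

set_option linter.unusedSectionVars false

section

variable {B : ℕ} {Z G : Type} [Fintype Z] [PartialOrder G]

/-- **Averaging.** If `g` holds for more than the fraction `A ^ (-B)` of the families of planted
graphs then in some context it holds for more than the fraction `1 / A` of the planted graphs in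
some block. -/
theorem exists_block (A : ℕ) (pl : Z → G) (K : G) (hK : ∀ z, pl z ≤ K)
    (g : (Fin B → G) → Prop) (hg : ∀ X Y : Fin B → G, (∀ b, X b ≤ Y b) → g X → g Y)
    (h : Fintype.card (Fin B → Z) < A ^ B * nc (fun t : Fin B → Z => g fun b => pl (t b))) :
    ∃ (b : Fin B) (t : Fin B → Z),
      Fintype.card Z < A * nc (fun z => g (Function.update (hyb pl K t b.1) b (pl z))) := by
  classical
  let a : ℕ → ℕ := fun b => nc fun t : Fin B → Z => g (hyb pl K t b)
  have hB : a B = nc (fun t : Fin B → Z => g fun b => pl (t b)) := by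
    refine nc_congr fun t => ?_
    have : hyb pl K t B = fun b => pl (t b) := by
      funext b
      exact if_pos b.2
    rw [this]
  obtain ⟨b, hb, hab⟩ : ∃ b < B, a b < A * a (b + 1) := by
    by_contra hcon
    push Not at hcon
    have h1 : ∀ b ≤ B, A ^ b * a b ≤ a 0 := by
      intro b
      induction b with
      | zero =>
        intro _
        rw [pow_zero, one_mul]
      | succ b ih =>
        intro hb
        calc A ^ (b + 1) * a (b + 1) = A ^ b * (A * a (b + 1)) := by ring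
          _ ≤ A ^ b * a b := Nat.mul_le_mul_left _ (hcon b (by omega))
          _ ≤ a 0 := ih (by omega)
    have h2 := h1 B le_rfl
    rw [hB] at h2
    exact absurd (h2.trans (nc_le_card _)) (not_le.2 h)
  have h1 := nc_update (⟨b, hb⟩ : Fin B) fun t : Fin B → Z => g (hyb pl K t b)
  have h2 := nc_update (⟨b, hb⟩ : Fin B) fun t : Fin B → Z => g (hyb pl K t (b + 1))
  have e1 : ∀ (t : Fin B → Z) (z : Z), hyb pl K (Function.update t ⟨b, hb⟩ z) b = hyb pl K t b := by
    intro t z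
    funext b'
    unfold hyb
    by_cases hb' : b'.1 < b
    · rw [if_pos hb', if_pos hb', Function.update_of_ne]
      rintro rfl
      exact lt_irrefl _ hb'
    · rw [if_neg hb', if_neg hb']
  have e2 : ∀ (t : Fin B → Z) (z : Z), hyb pl K (Function.update t ⟨b, hb⟩ z) (b + 1) =
      Function.update (hyb pl K t b) ⟨b, hb⟩ (pl z) := by
    intro t z
    funext b'
    by_cases hbb : b' = ⟨b, hb⟩
    · subst hbb
      rw [Function.update_self]
      unfold hyb
      rw [if_pos (Nat.lt_succ_self b), Function.update_self]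
    · rw [Function.update_of_ne hbb]
      unfold hyb
      have hne : b'.1 ≠ b := fun h' => hbb (Fin.ext h')
      by_cases hb' : b'.1 < b
      · rw [if_pos hb', if_pos (by omega), Function.update_of_ne hbb]
      · rw [if_neg hb', if_neg (by omega)]
  simp only [e1] at h1
  simp only [e2] at h2
  have hZ : 0 < Fintype.card Z := by
    by_contra h0
    have hZ0 : Fintype.card Z = 0 := by omega
    have : IsEmpty Z := Fintype.card_eq_zero_iff.1 hZ0
    have h3 : a (b + 1) = 0 := nc_false fun t => (this.false (t ⟨b, hb⟩)).elim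
    rw [h3, mul_zero] at hab
    omega
  obtain ⟨t, _, ht⟩ : ∃ t ∈ (univ : Finset (Fin B → Z)),
      nc (fun _ : Z => g (hyb pl K t b)) <
        A * nc (fun z => g (Function.update (hyb pl K t b) ⟨b, hb⟩ (pl z))) := by
    by_contra hcon
    push Not at hcon
    have h3 := Finset.sum_le_sum hcon
    rw [← Finset.mul_sum, ← h1, ← h2] at h3
    have h4 : Fintype.card Z * (A * a (b + 1)) ≤ Fintype.card Z * a b := by
      calc Fintype.card Z * (A * a (b + 1)) = A * (Fintype.card Z * a (b + 1)) := by ring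
        _ ≤ _ := h3
    exact absurd (Nat.le_of_mul_le_mul_left h4 hZ) (not_le.2 hab)
  refine ⟨⟨b, hb⟩, t, ?_⟩
  have hpos : 0 < nc (fun z => g (Function.update (hyb pl K t b) ⟨b, hb⟩ (pl z))) := by
    by_contra h0
    have h0' : nc (fun z => g (Function.update (hyb pl K t b) ⟨b, hb⟩ (pl z))) = 0 := by omega
    rw [h0', mul_zero] at ht
    omega
  obtain ⟨z, hz⟩ := nc_pos.1 hpos
  have hgt : g (hyb pl K t b) := by
    refine hg _ _ (fun b' => ?_) hz
    by_cases hbb : b' = ⟨b, hb⟩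
    · subst hbb
      rw [Function.update_self]
      unfold hyb
      rw [if_neg (lt_irrefl _)]
      exact hK z
    · rw [Function.update_of_ne hbb]
  rwa [nc_const, if_pos hgt] at ht

end

section

variable {V Ω P : Type} [Fintype V] [Fintype Ω] [Fintype P] {n J : ℕ}
variable {φ : Fin J → V ↪ Fin n} {R : Ω → SimpleGraph V} {A : P → Finset V}

/-- One block. -/
theorem line_le {s a : ℕ} {ε : ℝ} (ha : 1 ≤ a) (hε : 4 * a * ε ≤ 1)
    (BL : ∀ F : SimpleGraph V → Prop, MonoSize s F →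
      (nc (fun x : P × Ω => F (cq (A x.1)) ∧ ¬ F (R x.2)) : ℝ) ≤
        Fintype.card P * nc (fun ω => F (R ω)) + ε * (Fintype.card P * Fintype.card Ω))
    {F : SimpleGraph (Fin n) → Prop} (hF : MonoSize s F) (ψ : V ↪ Fin n) [Nonempty P]
    (hP : Fintype.card P ≤ 2 * a * nc (fun p => F ((cq (A p)).map ψ))) :
    8 * a * nc (fun ω => ¬ F ((R ω).map ψ)) ≤ (8 * a - 1) * Fintype.card Ω := by
  have h0 : MonoSize s fun x : SimpleGraph V => F (x.map ψ) := by
    have h := hF.restrict ψ ⊥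
    simpa only [bot_sup_eq] using h
  have h1 := BL _ h0
  rw [nc_prod_and (fun p => F ((cq (A p)).map ψ)) fun ω => ¬ F ((R ω).map ψ)] at h1
  have h2 := nc_add_nc_not fun ω => F ((R ω).map ψ)
  have hP0 : (0 : ℝ) < Fintype.card P := by exact_mod_cast Fintype.card_pos
  have hPR : (Fintype.card P : ℝ) ≤ 2 * a * nc (fun p => F ((cq (A p)).map ψ)) := by
    exact_mod_cast hP
  have h2R : (nc (fun ω => F ((R ω).map ψ)) : ℝ) + nc (fun ω => ¬ F ((R ω).map ψ)) =
      Fintype.card Ω := by exact_mod_cast h2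
  set ν : ℝ := ((nc (fun ω => ¬ F ((R ω).map ψ)) : ℕ) : ℝ) with hν
  set μ : ℝ := ((nc (fun ω => F ((R ω).map ψ)) : ℕ) : ℝ) with hμ
  set d : ℝ := ((nc (fun p => F ((cq (A p)).map ψ)) : ℕ) : ℝ) with hd
  have hν0 : 0 ≤ ν := Nat.cast_nonneg _
  have hΩ0 : (0 : ℝ) ≤ Fintype.card Ω := Nat.cast_nonneg _
  have ha1 : (1 : ℝ) ≤ a := by exact_mod_cast ha
  push_cast at h1
  have h3 : (Fintype.card P : ℝ) * ν ≤ 2 * a * (d * ν) := by
    have := mul_le_mul_of_nonneg_right hPR hν0
    calc (Fintype.card P : ℝ) * ν ≤ 2 * a * d * ν := this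
      _ = _ := by ring
  have h4 : (Fintype.card P : ℝ) * ν ≤
      2 * a * (Fintype.card P * μ + ε * (Fintype.card P * Fintype.card Ω)) :=
    h3.trans (mul_le_mul_of_nonneg_left h1 (by positivity))
  have h5 : ν ≤ 2 * a * (μ + ε * Fintype.card Ω) := by
    have h6 : (Fintype.card P : ℝ) * ν ≤
        Fintype.card P * (2 * a * (μ + ε * Fintype.card Ω)) := by
      refine h4.trans (le_of_eq ?_)
      ring
    exact le_of_mul_le_mul_left h6 hP0
  have h6 : 4 * a * ε * Fintype.card Ω ≤ 1 * Fintype.card Ω :=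
    mul_le_mul_of_nonneg_right hε hΩ0
  have h7 : (1 + 2 * a) * ν ≤ (2 * a + 1 / 2) * Fintype.card Ω := by
    have : μ = Fintype.card Ω - ν := by linarith
    rw [this] at h5
    linarith
  have h8 : 8 * a * ν ≤ (8 * a - 1) * Fintype.card Ω := by
    -- multiply by 1 + 2 a
    have h9 : (1 + 2 * (a : ℝ)) * (8 * a * ν) ≤
        (1 + 2 * (a : ℝ)) * ((8 * a - 1) * Fintype.card Ω) := by
      calc (1 + 2 * (a : ℝ)) * (8 * a * ν) = 8 * a * ((1 + 2 * a) * ν) := by ring
        _ ≤ 8 * a * ((2 * a + 1 / 2) * Fintype.card Ω) :=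
            mul_le_mul_of_nonneg_left h7 (by positivity)
        _ ≤ (1 + 2 * (a : ℝ)) * ((8 * a - 1) * Fintype.card Ω) := by
            have : 0 ≤ ((2 : ℝ) * a - 1) * Fintype.card Ω := mul_nonneg (by linarith) hΩ0
            nlinarith
    exact le_of_mul_le_mul_left h9 (by positivity)
  have h9 : 1 ≤ 8 * a := by omega
  rw [hν] at h8
  have h10 : ((8 * a - 1 : ℕ) : ℝ) = 8 * (a : ℝ) - 1 := by
    rw [Nat.cast_sub h9]
    push_cast
    ring
  rw [← h10] at h8
  exact_mod_cast h8

/-- All blocks. -/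
theorem lines_le {s a : ℕ} {ε : ℝ} (ha : 1 ≤ a) (hε : 4 * a * ε ≤ 1)
    (BL : ∀ F : SimpleGraph V → Prop, MonoSize s F →
      (nc (fun x : P × Ω => F (cq (A x.1)) ∧ ¬ F (R x.2)) : ℝ) ≤
        Fintype.card P * nc (fun ω => F (R ω)) + ε * (Fintype.card P * Fintype.card Ω))
    {F : SimpleGraph (Fin n) → Prop} (hF : MonoSize s F) [Nonempty P] (I : Finset (Fin J))
    (hI : ∀ i ∈ I, Fintype.card P ≤ 2 * a * nc (fun p => F ((cq (A p)).map (φ i)))) :
    (8 * a) ^ I.card * nc (fun ω : Fin J → Ω => ¬ F (pre φ R ω J)) ≤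
      (8 * a - 1) ^ I.card * Fintype.card Ω ^ J := by
  classical
  have h1 : nc (fun ω : Fin J → Ω => ¬ F (pre φ R ω J)) ≤
      ∏ i, nc (fun y : Ω => ¬ F ((R y).map (φ i))) := by
    rw [← nc_pi fun (i : Fin J) (y : Ω) => ¬ F ((R y).map (φ i))]
    refine nc_mono fun ω hω i hi => hω (hF.mono ?_ hi)
    intro x y hxy
    exact ⟨i, i.2, hxy⟩
  have h2 : ∏ i : Fin J, (if i ∈ I then 8 * a else 1) = (8 * a) ^ I.card := by
    rw [Finset.prod_ite_mem, Finset.univ_inter, Finset.prod_const]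
  have h3 : ∏ i : Fin J, (if i ∈ I then 8 * a - 1 else 1) = (8 * a - 1) ^ I.card := by
    rw [Finset.prod_ite_mem, Finset.univ_inter, Finset.prod_const]
  calc (8 * a) ^ I.card * nc (fun ω : Fin J → Ω => ¬ F (pre φ R ω J))
      ≤ (8 * a) ^ I.card * ∏ i, nc (fun y : Ω => ¬ F ((R y).map (φ i))) :=
        Nat.mul_le_mul_left _ h1
    _ = ∏ i : Fin J, ((if i ∈ I then 8 * a else 1) *
          nc (fun y : Ω => ¬ F ((R y).map (φ i)))) := by
        rw [Finset.prod_mul_distrib, h2]
    _ ≤ ∏ i : Fin J, ((if i ∈ I then 8 * a - 1 else 1) * Fintype.card Ω) := by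
        refine Finset.prod_le_prod' fun i _ => ?_
        by_cases hi : i ∈ I
        · rw [if_pos hi, if_pos hi]
          exact line_le ha hε BL hF (φ i) (hI i hi)
        · rw [if_neg hi, if_neg hi]
          exact Nat.mul_le_mul_left _ (nc_le_card _)
    _ = (8 * a - 1) ^ I.card * Fintype.card Ω ^ J := by
        rw [Finset.prod_mul_distrib, h3, Finset.prod_const, Finset.card_univ, Fintype.card_fin]

/-- Many blocks contain many accepted planted graphs. -/
theorem exists_good {a : ℕ} {F : SimpleGraph (Fin n) → Prop}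
    (h : Fintype.card (Fin J × P) <
      a * nc (fun z : Fin J × P => F ((cq (A z.2)).map (φ z.1)))) :
    ∃ I : Finset (Fin J), J < 2 * a * I.card ∧
      ∀ i ∈ I, Fintype.card P ≤ 2 * a * nc (fun p => F ((cq (A p)).map (φ i))) := by
  classical
  refine ⟨univ.filter fun i => Fintype.card P ≤ 2 * a * nc (fun p => F ((cq (A p)).map (φ i))),
    ?_, fun i hi => (Finset.mem_filter.1 hi).2⟩
  set I : Finset (Fin J) :=
    univ.filter fun i => Fintype.card P ≤ 2 * a * nc (fun p => F ((cq (A p)).map (φ i))) with hI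
  rw [nc_prod fun (i : Fin J) (p : P) => F ((cq (A p)).map (φ i)), Fintype.card_prod,
    Fintype.card_fin] at h
  have h1 : ∀ i : Fin J, 2 * a * nc (fun p => F ((cq (A p)).map (φ i))) ≤
      Fintype.card P + (if i ∈ I then 2 * a * Fintype.card P else 0) := by
    intro i
    by_cases hi : i ∈ I
    · rw [if_pos hi]
      have := Nat.mul_le_mul_left (2 * a) (nc_le_card fun p => F ((cq (A p)).map (φ i)))
      omega
    · rw [if_neg hi]
      have : ¬ Fintype.card P ≤ 2 * a * nc (fun p => F ((cq (A p)).map (φ i))) := fun h' =>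
        hi (Finset.mem_filter.2 ⟨Finset.mem_univ _, h'⟩)
      omega
  have h2 := Finset.sum_le_sum fun (i : Fin J) (_ : i ∈ univ) => h1 i
  rw [← Finset.mul_sum, Finset.sum_add_distrib, Finset.sum_const, Finset.card_univ,
    Fintype.card_fin, smul_eq_mul, Finset.sum_ite_mem, Finset.univ_inter, Finset.sum_const,
    smul_eq_mul] at h2
  by_contra hcon
  push Not at hcon
  have h3 : 2 * a * I.card * Fintype.card P ≤ J * Fintype.card P := Nat.mul_le_mul_right _ hcon
  have h4 : I.card * (2 * a * Fintype.card P) = 2 * a * I.card * Fintype.card P := by ring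
  have h5 : 2 * a * ∑ i : Fin J, nc (fun p => F ((cq (A p)).map (φ i))) =
      2 * (a * ∑ i : Fin J, nc (fun p => F ((cq (A p)).map (φ i)))) := by ring
  omega

/-- The exponential growth. -/
theorem growth {D g c : ℕ} (hD : 2 ≤ D) (h : D ^ g ≤ 2 ^ c * (D - 1) ^ g) : g ≤ D * c := by
  by_contra hcon
  push Not at hcon
  obtain ⟨d, rfl⟩ : ∃ d, g = D * c + 1 + d := ⟨g - (D * c + 1), by omega⟩
  obtain ⟨E, rfl⟩ : ∃ E, D = E + 1 := ⟨D - 1, by omega⟩
  rw [Nat.add_sub_cancel] at h
  have hE : 1 ≤ E := by omega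
  have h0 : 2 * E ^ (E + 1) ≤ (E + 1) ^ (E + 1) := by
    have h1 : (1 : ℝ) + ((E + 1 : ℕ) : ℝ) * (1 / E) ≤ (1 + 1 / E) ^ (E + 1) :=
      one_add_mul_le_pow (by
        have : (0 : ℝ) ≤ 1 / (E : ℝ) := by positivity
        linarith) _
    have hE0 : (0 : ℝ) < E := by exact_mod_cast hE
    have h2 : (2 : ℝ) ≤ 1 + ((E + 1 : ℕ) : ℝ) * (1 / E) := by
      push_cast
      rw [mul_one_div]
      have : (1 : ℝ) ≤ ((E : ℝ) + 1) / E := by
        rw [le_div_iff₀ hE0]
        linarith
      linarith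
    have h3 : (2 : ℝ) * (E : ℝ) ^ (E + 1) ≤ ((E : ℝ) + 1) ^ (E + 1) := by
      calc (2 : ℝ) * (E : ℝ) ^ (E + 1) ≤ (1 + 1 / E) ^ (E + 1) * (E : ℝ) ^ (E + 1) :=
            mul_le_mul_of_nonneg_right (h2.trans h1) (by positivity)
        _ = ((E : ℝ) + 1) ^ (E + 1) := by
            rw [← mul_pow]
            congr 1
            field_simp
    exact_mod_cast h3
  have h1 : 2 ^ c * E ^ ((E + 1) * c) ≤ (E + 1) ^ ((E + 1) * c) := by
    rw [pow_mul, pow_mul, ← mul_pow]
    exact Nat.pow_le_pow_left h0 c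
  have h2 : E ^ (1 + d) < (E + 1) ^ (1 + d) := Nat.pow_lt_pow_left (by omega) (by omega)
  have h3 : 2 ^ c * E ^ ((E + 1) * c + 1 + d) < (E + 1) ^ ((E + 1) * c + 1 + d) := by
    rw [add_assoc, pow_add E, pow_add (E + 1)]
    calc 2 ^ c * (E ^ ((E + 1) * c) * E ^ (1 + d)) = 2 ^ c * E ^ ((E + 1) * c) * E ^ (1 + d) := by
          ring
      _ ≤ (E + 1) ^ ((E + 1) * c) * E ^ (1 + d) := Nat.mul_le_mul_right _ h1
      _ < (E + 1) ^ ((E + 1) * c) * (E + 1) ^ (1 + d) :=
          Nat.mul_lt_mul_of_pos_left h2 (by positivity)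
  omega

/-- **Counting.** If half of the unions of random graphs have to be rejected by one of at most
`2 ^ b` monotone functions which accept the fraction `1 / a` of the planted cliques then `b` is
large. -/
theorem count_bound {s a : ℕ} {ε : ℝ} (ha : 1 ≤ a) (hε : 4 * a * ε ≤ 1)
    (BL : ∀ F : SimpleGraph V → Prop, MonoSize s F →
      (nc (fun x : P × Ω => F (cq (A x.1)) ∧ ¬ F (R x.2)) : ℝ) ≤
        Fintype.card P * nc (fun ω => F (R ω)) + ε * (Fintype.card P * Fintype.card Ω))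
    {ι : Type} [Fintype ι] {b : ℕ} (hι : Fintype.card ι ≤ 2 ^ b)
    (F : ι → SimpleGraph (Fin n) → Prop) (hF : ∀ j, MonoSize s (F j)) [Nonempty P] [Nonempty Ω]
    (hpos : Fintype.card (Fin J × P) <
      a * nc (fun z : Fin J × P => ∀ j, F j ((cq (A z.2)).map (φ z.1))))
    (good : SimpleGraph (Fin n) → Prop) (hneg : ∀ x, good x → ∃ j, ¬ F j x)
    (hgood : Fintype.card (Fin J → Ω) ≤
      2 * nc (fun ω : Fin J → Ω => good (pre φ R ω J))) :
    J ≤ 16 * a ^ 2 * (b + 1) := by
  classical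
  obtain ⟨I, hI1, hI2⟩ := exists_good (F := fun x => ∀ j, F j x) hpos
  have h1 : ∀ j, (8 * a) ^ I.card * nc (fun ω : Fin J → Ω => ¬ F j (pre φ R ω J)) ≤
      (8 * a - 1) ^ I.card * Fintype.card Ω ^ J := fun j =>
    lines_le ha hε BL (hF j) I fun i hi => (hI2 i hi).trans (Nat.mul_le_mul_left _
      (nc_mono fun p hp => hp j))
  have h2 : nc (fun ω : Fin J → Ω => good (pre φ R ω J)) ≤
      ∑ j : ι, nc (fun ω : Fin J → Ω => ¬ F j (pre φ R ω J)) := by
    refine le_trans (nc_mono fun ω hω => ?_) (nc_bex_le (univ : Finset ι)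
      fun j (ω : Fin J → Ω) => ¬ F j (pre φ R ω J))
    obtain ⟨j, hj⟩ := hneg _ hω
    exact ⟨j, Finset.mem_univ _, hj⟩
  have h3 : (8 * a) ^ I.card * nc (fun ω : Fin J → Ω => good (pre φ R ω J)) ≤
      2 ^ b * ((8 * a - 1) ^ I.card * Fintype.card Ω ^ J) := by
    calc (8 * a) ^ I.card * nc (fun ω : Fin J → Ω => good (pre φ R ω J))
        ≤ (8 * a) ^ I.card * ∑ j : ι, nc (fun ω : Fin J → Ω => ¬ F j (pre φ R ω J)) :=
          Nat.mul_le_mul_left _ h2
      _ = ∑ j : ι, (8 * a) ^ I.card * nc (fun ω : Fin J → Ω => ¬ F j (pre φ R ω J)) :=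
          Finset.mul_sum _ _ _
      _ ≤ ∑ _j : ι, (8 * a - 1) ^ I.card * Fintype.card Ω ^ J :=
          Finset.sum_le_sum fun j _ => h1 j
      _ = Fintype.card ι * ((8 * a - 1) ^ I.card * Fintype.card Ω ^ J) := by
          rw [Finset.sum_const, Finset.card_univ, smul_eq_mul]
      _ ≤ _ := Nat.mul_le_mul_right _ hι
  rw [Fintype.card_fun, Fintype.card_fin] at hgood
  have hΩ : 0 < Fintype.card Ω ^ J := by
    have : 0 < Fintype.card Ω := Fintype.card_pos
    positivity
  have h4 : (8 * a) ^ I.card ≤ 2 ^ (b + 1) * (8 * a - 1) ^ I.card := by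
    refine Nat.le_of_mul_le_mul_right ?_ hΩ
    calc (8 * a) ^ I.card * Fintype.card Ω ^ J
        ≤ (8 * a) ^ I.card * (2 * nc (fun ω : Fin J → Ω => good (pre φ R ω J))) :=
          Nat.mul_le_mul_left _ hgood
      _ = 2 * ((8 * a) ^ I.card * nc (fun ω : Fin J → Ω => good (pre φ R ω J))) := by ring
      _ ≤ 2 * (2 ^ b * ((8 * a - 1) ^ I.card * Fintype.card Ω ^ J)) := Nat.mul_le_mul_left _ h3
      _ = 2 ^ (b + 1) * (8 * a - 1) ^ I.card * Fintype.card Ω ^ J := by
          rw [pow_succ]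
          ring
  have h5 := growth (by omega : 2 ≤ 8 * a) h4
  calc J ≤ 2 * a * I.card := hI1.le
    _ ≤ 2 * a * (8 * a * (b + 1)) := Nat.mul_le_mul_left _ h5
    _ = 16 * a ^ 2 * (b + 1) := by ring

end

end Pool.Agent.H27.WQ
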