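import Pool.Agent.H25.NM.Planted

/-!
Edge-disjoint blocks with a common colouring of the vertices.
-/

namespace Pool.Agent.H27.WQ

open Finset
open Pool.Agent.H25.NM

/-- `q ^ 2` pairwise edge-disjoint copies of the vertex set `V` in `Fin n` and a colouring of
`Fin n` which extends a given colouring of all the copies. -/
theorem exists_lines {V κ : Type} [Fintype V] {n q : ℕ} (hq : q.Prime)
    (hV : Fintype.card V ≤ q) (hn : Fintype.card V * q ≤ n) (c₀ : V → κ) [Nonempty κ] :
    ∃ (φ : Fin (q ^ 2) → V ↪ Fin n) (col : Fin n → κ),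
      (∀ i j u v u' v', u ≠ v → φ i u = φ j u' → φ i v = φ j v' → i = j) ∧
      ∀ i v, col (φ i v) = c₀ v := by
  classical
  have : Fact q.Prime := ⟨hq⟩
  have : NeZero q := ⟨hq.ne_zero⟩
  -- coordinates
  let c : V → ZMod q := fun v => ((Fintype.equivFin V v).1 : ZMod q)
  have hc : Function.Injective c := by
    intro u v huv
    have h1 := (ZMod.natCast_eq_natCast_iff' _ _ _).1 huv
    rw [Nat.mod_eq_of_lt, Nat.mod_eq_of_lt] at h1
    · exact (Fintype.equivFin V).injective (Fin.ext h1)
    · exact (Fintype.equivFin V v).2.trans_le hV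
    · exact (Fintype.equivFin V u).2.trans_le hV
  -- embedding of the points
  obtain ⟨e⟩ : Nonempty (V × ZMod q ↪ Fin n) := by
    rw [Function.Embedding.nonempty_iff_card_le, Fintype.card_prod, ZMod.card, Fintype.card_fin]
    exact hn
  obtain ⟨b⟩ : Nonempty (Fin (q ^ 2) ≃ ZMod q × ZMod q) := by
    rw [← Fintype.card_eq]
    rw [Fintype.card_fin, Fintype.card_prod, ZMod.card]
    ring
  refine ⟨fun i => ⟨fun v => e (v, (b i).1 * c v + (b i).2), ?_⟩,
    fun y => if h : ∃ z, e z = y then c₀ h.choose.1 else Classical.arbitrary κ, ?_, ?_⟩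
  · intro u v huv
    have := e.injective huv
    exact (Prod.ext_iff.1 this).1
  · intro i j u v u' v' huv h1 h2
    have h1' := Prod.ext_iff.1 (e.injective h1)
    have h2' := Prod.ext_iff.1 (e.injective h2)
    simp only at h1' h2'
    obtain ⟨a1, a2⟩ := h1'
    obtain ⟨b1, b2⟩ := h2'
    subst a1
    subst b1
    have hne : c u - c v ≠ 0 := sub_ne_zero.2 fun h => huv (hc h)
    have h3 : ((b i).1 - (b j).1) * (c u - c v) = 0 := by linear_combination a2 - b2
    have h4 : (b i).1 = (b j).1 := by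
      rcases mul_eq_zero.1 h3 with h | h
      · exact sub_eq_zero.1 h
      · exact absurd h hne
    have h5 : (b i).2 = (b j).2 := by
      rw [h4] at a2
      exact add_left_cancel a2
    exact b.injective (Prod.ext h4 h5)
  · intro i v
    have h : ∃ z, e z = e (v, (b i).1 * c v + (b i).2) := ⟨_, rfl⟩
    show (if h : ∃ z, e z = e (v, (b i).1 * c v + (b i).2) then c₀ h.choose.1
      else Classical.arbitrary κ) = c₀ v
    rw [dif_pos h]
    have h1 := e.injective h.choose_spec
    rw [h1]

/-- The complete multipartite graph given by a colouring. -/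
def kp {n k : ℕ} (col : Fin n → Fin k) : SimpleGraph (Fin n) where
  Adj x y := col x ≠ col y
  symm := ⟨fun _ _ h => h.symm⟩
  loopless := ⟨fun _ h => h rfl⟩

theorem kp_cliqueFree {n k : ℕ} (col : Fin n → Fin k) : (kp col).CliqueFree (k + 1) := by
  have h : (kp col).Colorable k := ⟨SimpleGraph.Coloring.mk col fun h => h⟩
  exact h.cliqueFree (Nat.lt_succ_self k)

theorem planted_le_kp {k w n J : ℕ} {φ : Fin J → Fin k × Fin w ↪ Fin n} {col : Fin n → Fin k}
    (h : ∀ i v, col (φ i v) = v.1) (z : Fin J × (Fin k → Fin w)) :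
    (cq (tr z.2)).map (φ z.1) ≤ kp col := by
  intro x y hxy
  rw [SimpleGraph.map_adj] at hxy
  obtain ⟨u, v, huv, rfl, rfl⟩ := hxy
  show col _ ≠ col _
  rw [h, h]
  intro h1
  obtain ⟨h2, h3, h4⟩ := huv
  rw [mem_tr] at h3 h4
  refine h2 (Prod.ext h1 ?_)
  rw [← h3, ← h4, h1]

theorem planted_not_cliqueFree' {k w n : ℕ} (φ : Fin k × Fin w ↪ Fin n) (p : Fin k → Fin w) :
    ¬ ((cq (tr p)).map φ).CliqueFree k := by
  have h := planted_not_cliqueFree φ p ⊥
  rwa [bot_sup_eq] at h

theorem nc_positions_le {V : Type} [Fintype V] {n J : ℕ} (φ : Fin J → V ↪ Fin n)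
    (hφ : ∀ i j u v u' v', u ≠ v → φ i u = φ j u' → φ i v = φ j v' → i = j)
    (e : Sym2 (Fin n)) (he : ¬ e.IsDiag) :
    nc (fun p : Fin J × Sym2 V => Sym2.map (φ p.1) p.2 = e) ≤ 1 := by
  classical
  rw [nc_eq, Finset.card_le_one]
  rintro ⟨i, a⟩ ha ⟨j, b⟩ hb
  have h1 := (Finset.mem_filter.1 ha).2
  have h2 := (Finset.mem_filter.1 hb).2
  simp only at h1 h2
  induction a using Sym2.ind with
  | _ u v =>
    induction b using Sym2.ind with
    | _ u' v' =>
      have huv : u ≠ v := by
        rintro rfl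
        apply he
        rw [← h1, Sym2.map_mk]
        exact Sym2.mk_isDiag_iff.2 rfl
      have h3 := h1.trans h2.symm
      rw [Sym2.map_mk, Sym2.map_mk, Sym2.eq_iff] at h3
      rcases h3 with ⟨h3, h4⟩ | ⟨h3, h4⟩
      · have hij := hφ i j u v u' v' huv h3 h4
        subst hij
        rw [(φ i).injective h3, (φ i).injective h4]
      · have hij := hφ i j u v v' u' huv h3 h4
        subst hij
        rw [(φ i).injective h3, (φ i).injective h4, Sym2.eq_swap]

end Pool.Agent.H27.WQ
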