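import Pool.Agent.H25.NM.SparseFin
import Pool.Agent.H27.CN.Join
import Pool.Agent.H27.WQ.Lines
import Pool.Agent.H27.WQ.Avg

/-!
The finite form of the bound for an existential and a universal quantifier, sparse test graphs.
-/

namespace Pool.Agent.H27.WQ

open Finset
open Pool.Agent.H25.NM
open Pool.Agent.H27.CN (jn jn_mono blk jn_update not_cliqueFree_jn cliqueFree_jn hyb)

set_option linter.unusedSectionVars false

theorem eps_le {K w s a L m : ℕ} {η : ℝ}
    (he1 : 8 * (a : ℝ) * s * ((m + 1) ^ 2 * 2 ^ m * η) ≤ 1)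
    (he2 : 8 * (a : ℝ) * s * ((K * w + 1 : ℕ) : ℝ) ^ m ≤ 3 ^ L) :
    4 * (a : ℝ) * (s * ((m + 1) ^ 2 * 2 ^ m * η +
      small (Fin K × Fin w) m / ((3 ^ L : ℕ) : ℝ))) ≤ 1 := by
  have hVc : Fintype.card (Fin K × Fin w) = K * w := by
    rw [Fintype.card_prod, Fintype.card_fin, Fintype.card_fin]
  have g1 : 4 * (a : ℝ) * (s * ((m + 1) ^ 2 * 2 ^ m * η)) ≤ 1 / 2 := by linarith
  have g2 : 4 * (a : ℝ) * (s * (small (Fin K × Fin w) m / ((3 ^ L : ℕ) : ℝ))) ≤ 1 / 2 := by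
    have e1 : 4 * (a : ℝ) * (s * (small (Fin K × Fin w) m / ((3 ^ L : ℕ) : ℝ))) =
        (8 * (a : ℝ) * s * small (Fin K × Fin w) m) / 3 ^ L / 2 := by
      push_cast
      ring
    rw [e1]
    have e2 : (8 * (a : ℝ) * s * small (Fin K × Fin w) m) / 3 ^ L ≤ 1 := by
      rw [div_le_one (by positivity)]
      refine le_trans (mul_le_mul_of_nonneg_left ?_ (by positivity)) he2
      have := small_le (Fin K × Fin w) m
      rw [hVc] at this
      exact_mod_cast this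
    linarith
  have g3 : 4 * (a : ℝ) * (s * ((m + 1) ^ 2 * 2 ^ m * η +
      small (Fin K × Fin w) m / ((3 ^ L : ℕ) : ℝ))) =
      4 * (a : ℝ) * (s * ((m + 1) ^ 2 * 2 ^ m * η)) +
      4 * (a : ℝ) * (s * (small (Fin K × Fin w) m / ((3 ^ L : ℕ) : ℝ))) := by ring
  rw [g3]
  linarith

/-- Half of the unions of random graphs contain no clique. -/
theorem half_good {K' l w L Q q n₁ : ℕ} [NeZero Q] (φ : Fin (q ^ 2) → Fin K' × Fin w ↪ Fin n₁)
    (hφ : ∀ i j u v u' v', u ≠ v → φ i u = φ j u' → φ i v = φ j v' → i = j)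
    (hcl : 2 * n₁ ^ l * L ^ (l.choose 2) ≤ Q ^ (l.choose 2)) :
    Fintype.card (Fin (q ^ 2) → (Sym2 (Fin K' × Fin w) → (Fin L → Fin Q))) ≤
      2 * nc (fun ω : Fin (q ^ 2) → (Sym2 (Fin K' × Fin w) → (Fin L → Fin Q)) =>
        (pre φ (gr (zset L Q)) ω (q ^ 2)).CliqueFree l) := by
  classical
  set K := Fintype.card (Fin (q ^ 2) → (Sym2 (Fin K' × Fin w) → (Fin L → Fin Q))) with hK
  have hbad := nc_not_cliqueFree_le φ 1 (nc_positions_le φ hφ) (zset L Q) l
  rw [← hK, one_pow, one_mul, Fintype.card_fun, Fintype.card_fin, Fintype.card_fin] at hbad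
  have hQpos : 0 < Q := Nat.pos_of_ne_zero (NeZero.ne Q)
  have hbad2 : 2 * nc (fun ω : Fin (q ^ 2) → (Sym2 (Fin K' × Fin w) → (Fin L → Fin Q)) =>
      ¬ (pre φ (gr (zset L Q)) ω (q ^ 2)).CliqueFree l) ≤ K := by
    have g1 := Nat.pow_le_pow_left (card_zset_mul_le L Q) (l.choose 2)
    have g2 : 0 < (Q ^ L) ^ (l.choose 2) * Q ^ (l.choose 2) := by positivity
    refine Nat.le_of_mul_le_mul_left ?_ g2
    calc (Q ^ L) ^ (l.choose 2) * Q ^ (l.choose 2) *
          (2 * nc (fun ω : Fin (q ^ 2) → (Sym2 (Fin K' × Fin w) → (Fin L → Fin Q)) =>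
            ¬ (pre φ (gr (zset L Q)) ω (q ^ 2)).CliqueFree l))
        = 2 * Q ^ (l.choose 2) *
          (nc (fun ω : Fin (q ^ 2) → (Sym2 (Fin K' × Fin w) → (Fin L → Fin Q)) =>
            ¬ (pre φ (gr (zset L Q)) ω (q ^ 2)).CliqueFree l) * (Q ^ L) ^ (l.choose 2)) := by
          ring
      _ ≤ 2 * Q ^ (l.choose 2) *
          (n₁.choose l * ((zset L Q).card ^ (l.choose 2) * K)) :=
          Nat.mul_le_mul_left _ hbad
      _ ≤ 2 * Q ^ (l.choose 2) *
          (n₁ ^ l * ((zset L Q).card ^ (l.choose 2) * K)) :=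
          Nat.mul_le_mul_left _ (Nat.mul_le_mul_right _ (Nat.choose_le_pow n₁ l))
      _ = 2 * n₁ ^ l * ((zset L Q).card * Q) ^ (l.choose 2) * K := by
          rw [mul_pow]
          ring
      _ ≤ 2 * n₁ ^ l * (L * Q ^ L) ^ (l.choose 2) * K :=
          Nat.mul_le_mul_right _ (Nat.mul_le_mul_left _ g1)
      _ = (2 * n₁ ^ l * L ^ (l.choose 2)) * ((Q ^ L) ^ (l.choose 2) * K) := by
          rw [mul_pow]
          ring
      _ ≤ Q ^ (l.choose 2) * ((Q ^ L) ^ (l.choose 2) * K) := Nat.mul_le_mul_right _ hcl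
      _ = _ := by ring
  have g1 := nc_add_nc_not fun ω : Fin (q ^ 2) → (Sym2 (Fin K' × Fin w) → (Fin L → Fin Q)) =>
    (pre φ (gr (zset L Q)) ω (q ^ 2)).CliqueFree l
  rw [← hK] at g1
  omega

/-- **Finite form.** Let `∃ i, ∀ j, f i j G`, with less than `a ^ B` values of `i` and at most
`2 ^ b` values of `j`, hold for all graphs with a clique with `B * K + u` vertices and fail for
all graphs without a clique with `(B - 1) * K + l + u` vertices. Then `b` is large. -/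
theorem sparse_bound {K l w L Q q n₁ n B u s m a b t₀ : ℕ} [NeZero Q] (hq : q.Prime)
    (hL : 1 ≤ L) (hw : 1 ≤ w) (hm : 2 ≤ m) {Λ η : ℝ} (hΛ : 1 ≤ Λ) (hη : 0 ≤ η)
    (h32 : (1 + 1 / Λ) ^ m ≤ 3 / 2) (hc : 2 * Λ * (Q : ℝ) ^ (m - 1) ≤ w)
    (hE : ∀ a ≤ m, ∀ j ≤ m, ∀ i ≤ a, i ≤ j → m < a + j - i →
      Λ ^ (a + j - i) * (Q : ℝ) ^ (a.choose 2 + (j.choose 2 - i.choose 2)) ≤
        η * (w : ℝ) ^ (a + j - i))
    (hK : 1 ≤ K) (hV : K * w ≤ q) (hn : K * w * q ≤ n₁) (ha : 1 ≤ a)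
    (he1 : 8 * (a : ℝ) * s * ((m + 1) ^ 2 * 2 ^ m * η) ≤ 1)
    (he2 : 8 * (a : ℝ) * s * ((K * w + 1 : ℕ) : ℝ) ^ m ≤ 3 ^ L)
    (hcl : 2 * n₁ ^ l * L ^ (l.choose 2) ≤ Q ^ (l.choose 2))
    (e : ((Fin B × Fin n₁) ⊕ Fin u) ↪ Fin n) (ht₀ : B * K + u ≤ t₀ + K)
    {ι₁ ι₂ : Type} [Fintype ι₁] [Fintype ι₂]
    (f : ι₁ → ι₂ → SimpleGraph (Fin n) → Prop) (hf : ∀ i j, MonoSize s (f i j))
    (h1 : Fintype.card ι₁ < a ^ B) (h2 : Fintype.card ι₂ ≤ 2 ^ b)
    (hpos : ∀ G : SimpleGraph (Fin n), ¬ G.CliqueFree (B * K + u) → ∃ i, ∀ j, f i j G)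
    (hneg : ∀ G : SimpleGraph (Fin n), G.CliqueFree (t₀ + l) → ¬ ∃ i, ∀ j, f i j G) :
    q ^ 2 ≤ 16 * a ^ 2 * (b + 1) := by
  classical
  have hwpos : 0 < w := by omega
  have : Nonempty (Fin w) := ⟨⟨0, hwpos⟩⟩
  have : Nonempty (Fin K) := ⟨⟨0, hK⟩⟩
  have hn₁ : 0 < n₁ := by
    have : 0 < K * w * q := Nat.mul_pos (Nat.mul_pos hK hwpos) hq.pos
    omega
  have hVc : Fintype.card (Fin K × Fin w) = K * w := by
    rw [Fintype.card_prod, Fintype.card_fin, Fintype.card_fin]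
  obtain ⟨φ, col, hφ, hcol⟩ := exists_lines (V := Fin K × Fin w) (n := n₁) hq
    (by rw [hVc]; exact hV) (by rw [hVc]; exact hn) (fun v => v.1)
  have hB := blockHyp_sparse (k := K) (w := w) (L := L) (Q := Q) m hL hw hΛ hη h32 hc hE
  set Z := Fin (q ^ 2) × (Fin K → Fin w) with hZ
  let pl : Z → SimpleGraph (Fin n₁) := fun z => (cq (tr z.2)).map (φ z.1)
  have hpl : ∀ z, pl z ≤ kp col := planted_le_kp hcol
  -- one value of the existential quantifier
  obtain ⟨i, hi⟩ : ∃ i, Fintype.card (Fin B → Z) <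
      a ^ B * nc (fun t : Fin B → Z => ∀ j, f i j ((jn fun b => pl (t b)).map e)) := by
    by_contra hcon
    push Not at hcon
    have g1 : Fintype.card (Fin B → Z) ≤
        ∑ i : ι₁, nc (fun t : Fin B → Z => ∀ j, f i j ((jn fun b => pl (t b)).map e)) := by
      rw [← nc_true (p := fun _ : Fin B → Z => True) fun _ => trivial]
      refine le_trans (nc_mono fun t _ => ?_) (nc_bex_le (univ : Finset ι₁)
        fun i (t : Fin B → Z) => ∀ j, f i j ((jn fun b => pl (t b)).map e))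
      obtain ⟨i, hi⟩ := hpos _ (not_cliqueFree_jn e
        (X := fun b => pl (t b)) fun b => planted_not_cliqueFree' (φ (t b).1) (t b).2)
      exact ⟨i, Finset.mem_univ _, hi⟩
    have g2 := Finset.sum_le_sum fun (i : ι₁) (_ : i ∈ univ) => hcon i
    rw [← Finset.mul_sum, Finset.sum_const, Finset.card_univ, smul_eq_mul] at g2
    have g3 : 0 < Fintype.card (Fin B → Z) := by
      have : Nonempty Z := ⟨(⟨0, Nat.pow_pos hq.pos⟩, fun _ => ⟨0, hwpos⟩)⟩
      exact Fintype.card_pos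
    have g4 := (Nat.mul_le_mul_left (a ^ B) g1).trans g2
    exact absurd (Nat.le_of_mul_le_mul_right g4 g3) (not_le.2 h1)
  -- one block
  obtain ⟨b₀, t, ht⟩ := exists_block a pl (kp col) hpl
    (fun X => ∀ j, f i j ((jn X).map e))
    (fun X Y hXY hX j => (hf i j).mono (SimpleGraph.map_monotone _ (jn_mono hXY)) (hX j)) hi
  set X₀ : Fin B → SimpleGraph (Fin n₁) := hyb pl (kp col) t b₀.1 with hX₀
  have hX₀k : ∀ b', X₀ b' ≤ kp col := by
    intro b'
    rw [hX₀]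
    unfold hyb
    by_cases h' : b'.1 < b₀.1
    · rw [if_pos h']
      exact hpl _
    · rw [if_neg h']
  have hF : ∀ j, MonoSize s fun x : SimpleGraph (Fin n₁) =>
      f i j ((jn (Function.update X₀ b₀ x)).map e) := by
    intro j
    have g1 := (hf i j).restrict (blk e b₀) ((jn (Function.update X₀ b₀ ⊥)).map e)
    have g2 : (fun x : SimpleGraph (Fin n₁) =>
        f i j ((jn (Function.update X₀ b₀ x)).map e)) = fun x => f i j
        ((jn (Function.update X₀ b₀ ⊥)).map e ⊔ x.map (blk e b₀)) := by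
      funext x
      rw [jn_update]
    rw [g2]
    exact g1
  -- the error term
  have hε := eps_le (K := K) (w := w) he1 he2
  exact count_bound (φ := φ) (R := gr (zset L Q)) (A := tr) ha hε (fun F hF => hB.main hm hF) h2
    (fun j x => f i j ((jn (Function.update X₀ b₀ x)).map e)) hF ht
    (fun x => x.CliqueFree l) (fun x hx => by
      have g1 : ((jn (Function.update X₀ b₀ x)).map e).CliqueFree (t₀ + l) := by
        refine cliqueFree_jn hn₁ e b₀ (fun b' hbb => ?_) ?_ ht₀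
        · rw [Function.update_of_ne hbb]
          exact (kp_cliqueFree col).anti (hX₀k b')
        · rw [Function.update_self]
          exact hx
      by_contra hcon
      push Not at hcon
      exact hneg _ g1 ⟨i, hcon⟩)
    (half_good φ hφ hcl)

end Pool.Agent.H27.WQ
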