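import Pool.Agent.H25.NM.Asymp
import Pool.Agent.H27.WQ.Fin

/-!
Choice of the parameters for fixed `k` and large `n`.
-/

namespace Pool.Agent.H27.WQ

open Finset Filter
open Pool.Agent.H25.NM

set_option linter.unusedSectionVars false

theorem core {l K k m : ℕ} {μ ω α ε e : ℝ} (hl : 2 ≤ l) (hlK : l ≤ K) (hKk : K ≤ k) (hm2 : 2 ≤ m)
    (hμ0 : 0 ≤ μ) (hα0 : 0 < α) (hα1 : α ≤ 1) (hω0 : 0 < ω) (hω1 : ω ≤ 3 / 8)
    (hsum : 2 * ω + 2 * α + μ ≤ 2) (hm : (m : ℝ) - 3 / 2 ≤ ω * ((l : ℝ) - 1) / 2)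
    (hε : 0 < ε)
    (hgap : ((m : ℝ) - 1) * (2 / ((l : ℝ) - 1)) + m * ε < ω)
    (hε2 : ε * (2 * (m : ℝ) ^ 2 + 2 * m) ≤ 1 / 8)
    (he : e + α + 1 / 4 ≤ ((m : ℝ) + 1) * ω - ((m : ℝ) ^ 2 + m - 2) / ((l : ℝ) - 1)) :
    ∀ᶠ n : ℕ in atTop, ∀ (ι₁ ι₂ : Type) [Fintype ι₁] [Fintype ι₂] (s b : ℕ)
      (f : ι₁ → ι₂ → SimpleGraph (Fin n) → Prop),
      (s : ℝ) ≤ (n : ℝ) ^ e → (∀ i j, MonoSize s (f i j)) →
      (Fintype.card ι₁ : ℝ) ≤ (n : ℝ) ^ (α * k / (4 * K)) → Fintype.card ι₂ ≤ 2 ^ b →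
      (b : ℝ) ≤ (n : ℝ) ^ μ →
      (∀ G : SimpleGraph (Fin n), ¬ G.CliqueFree k → ∃ i, ∀ j, f i j G) →
      (∀ G : SimpleGraph (Fin n), G.CliqueFree (k - K + l) → ¬ ∃ i, ∀ j, f i j G) → False := by
  set L' : ℝ := (l : ℝ) - 1 with hL'
  have hL'1 : 1 ≤ L' := by
    have : (2 : ℝ) ≤ l := by exact_mod_cast hl
    rw [hL']
    linarith
  have hL'0 : 0 < L' := by linarith
  have hmR : (2 : ℝ) ≤ m := by exact_mod_cast hm2
  have hm22 : (0 : ℝ) ≤ (m : ℝ) ^ 2 + m - 2 := by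
    have h := mul_nonneg (show (0 : ℝ) ≤ (m : ℝ) + 2 by linarith)
      (show (0 : ℝ) ≤ (m : ℝ) - 1 by linarith)
    calc (0 : ℝ) ≤ ((m : ℝ) + 2) * ((m : ℝ) - 1) := h
      _ = _ := by ring
  have hK2 : 2 ≤ K := hl.trans hlK
  have hKR : (2 : ℝ) ≤ K := by exact_mod_cast hK2
  have hk2 : 2 ≤ k := hK2.trans hKk
  have hkR : (2 : ℝ) ≤ k := by exact_mod_cast hk2
  have hKkR : (K : ℝ) ≤ k := by exact_mod_cast hKk
  have hch : 1 ≤ l.choose 2 := Nat.choose_pos hl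
  have hchR : (1 : ℝ) ≤ l.choose 2 := by exact_mod_cast hch
  set E : ℝ := ((m : ℝ) + 1) * ω - ((m : ℝ) ^ 2 + m - 2) / L' with hE
  have hεω : ε < ω := by
    have h1 : 0 ≤ ((m : ℝ) - 1) * (2 / L') := by
      have : (0 : ℝ) ≤ (m : ℝ) - 1 := by linarith
      positivity
    have h2 : ε ≤ m * ε := le_mul_of_one_le_left hε.le (by linarith)
    linarith
  set r₁ : ℝ := ω - ε - ((m : ℝ) - 1) * (2 / L' + ε) with hr₁
  have hr₁0 : 0 < r₁ := by
    have : r₁ = ω - (((m : ℝ) - 1) * (2 / L') + m * ε) := by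
      rw [hr₁]
      ring
    rw [this]
    linarith
  set C₁ : ℕ := 2 * m + 3 with hC₁
  set C₂ : ℝ := (3 * m : ℝ) ^ (2 * m) * 2 ^ (2 * m ^ 2 + 2 * m) with hC₂
  have hC₂0 : 0 < C₂ := by
    rw [hC₂]
    positivity
  set B : ℕ := k / K with hB
  have hB1 : 1 ≤ B := (Nat.one_le_div_iff (by omega)).2 hKk
  have hB1R : (1 : ℝ) ≤ B := by exact_mod_cast hB1
  have hBK : B * K ≤ k := Nat.div_mul_le_self k K
  have hBKR : (B : ℝ) * K ≤ k := by exact_mod_cast hBK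
  have hBK2 : k < 2 * (B * K) := by
    have h1 : k < K * (B + 1) := Nat.lt_mul_div_succ k (by omega)
    have h2 : K * (B + 1) = B * K + K := by ring
    have h3 : 1 * K ≤ B * K := Nat.mul_le_mul_right _ hB1
    omega
  -- the eventual conditions
  filter_upwards [eventually_ge_atTop 2, ev_const 2 (r := ω - ε) (by linarith),
    ev_const (4 * (3 * m : ℝ) * 2 ^ (m - 1)) hr₁0,
    ev_const (2 : ℝ) (r := α) hα0, ev_const (3 : ℝ) (r := α / 2) (by linarith),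
    ev_const (16 * (k : ℝ) ^ 2) (r := 1 / 4) (by norm_num),
    ev_const (2048 * (k : ℝ) ^ 2 + 1) (r := 2 * ε) (by linarith),
    ev_const (8 * ((m + 1) ^ 2 * 2 ^ m * C₂)) (r := 1 / 8) (by norm_num),
    ev_const (8 * 2 ^ m) (r := 1) one_pos,
    ev_const (16 * (k : ℝ)) (r := 1) one_pos,
    ev_log (2 * (2 * C₁) ^ (l.choose 2)) (l.choose 2) (r := ε * l.choose 2)
      (by positivity)]
    with n hn2 e1 e2 e3 e4 e5 e6 e7 e8 e9 e10
  intro ι₁ ι₂ _ _ s b f hs hf hι₁ hι₂ hb hpos hneg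
  have hn2R : (2 : ℝ) ≤ n := by exact_mod_cast hn2
  have hn0 : (0 : ℝ) < n := lt_of_lt_of_le two_pos hn2R
  have hn1 : (1 : ℝ) ≤ n := one_le_two.trans hn2R
  rw [Real.rpow_one] at e8 e9
  -- the parameters
  set w := ⌊(n : ℝ) ^ (ω - ε)⌋₊ with hw
  set Q := ⌈(n : ℝ) ^ (2 / L' + ε)⌉₊ with hQ
  set L := C₁ * (Nat.log 2 n + 1) with hL
  set a := ⌊(n : ℝ) ^ α⌋₊ with ha
  set u := k - B * K with hu
  set n₁ := (n - u) / B with hn₁
  set N := n₁ / (K * w) with hN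
  have hwle : (w : ℝ) ≤ (n : ℝ) ^ (ω - ε) := Nat.floor_le (by positivity)
  have hwge : (n : ℝ) ^ (ω - ε) / 2 ≤ w := by
    have := Nat.lt_floor_add_one ((n : ℝ) ^ (ω - ε))
    rw [← hw] at this
    linarith
  have hw1 : 1 ≤ w := by
    rw [hw, Nat.one_le_floor_iff]
    linarith
  have hwR : (1 : ℝ) ≤ w := by exact_mod_cast hw1
  have hale : (a : ℝ) ≤ (n : ℝ) ^ α := Nat.floor_le (by positivity)
  have hage : (n : ℝ) ^ α / 2 ≤ a := by
    have := Nat.lt_floor_add_one ((n : ℝ) ^ α)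
    rw [← ha] at this
    linarith
  have ha1 : 1 ≤ a := by
    rw [ha, Nat.one_le_floor_iff]
    linarith
  have haR : (1 : ℝ) ≤ a := by exact_mod_cast ha1
  have hQge : (n : ℝ) ^ (2 / L' + ε) ≤ Q := Nat.le_ceil _
  have hnQ1 : (1 : ℝ) ≤ (n : ℝ) ^ (2 / L' + ε) := Real.one_le_rpow hn1 (by positivity)
  have hQle : (Q : ℝ) ≤ 2 * (n : ℝ) ^ (2 / L' + ε) := by
    have := Nat.ceil_lt_add_one (a := (n : ℝ) ^ (2 / L' + ε)) (by positivity)
    rw [← hQ] at this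
    linarith
  have hQ1 : (1 : ℝ) ≤ Q := hnQ1.trans hQge
  have hQpos : 0 < Q := by
    have : (0 : ℝ) < Q := by linarith
    exact_mod_cast this
  have : NeZero Q := ⟨hQpos.ne'⟩
  have hL1 : 1 ≤ L := by
    rw [hL, hC₁]
    exact Nat.succ_le_of_lt (Nat.mul_pos (by omega) (by omega))
  -- the density condition
  have hc : 2 * (3 * m : ℝ) * (Q : ℝ) ^ (m - 1) ≤ w := by
    have g1 : (Q : ℝ) ^ (m - 1) ≤ 2 ^ (m - 1) * (n : ℝ) ^ (((m : ℝ) - 1) * (2 / L' + ε)) := by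
      calc (Q : ℝ) ^ (m - 1) ≤ (2 * (n : ℝ) ^ (2 / L' + ε)) ^ (m - 1) :=
            pow_le_pow_left₀ (by positivity) hQle _
        _ = 2 ^ (m - 1) * (n : ℝ) ^ (((m : ℝ) - 1) * (2 / L' + ε)) := by
            rw [mul_pow, ← Real.rpow_natCast ((n : ℝ) ^ (2 / L' + ε)), ← Real.rpow_mul hn0.le,
              Nat.cast_sub (by omega), Nat.cast_one, mul_comm (2 / L' + ε)]
    have g2 : (n : ℝ) ^ (ω - ε) =
        (n : ℝ) ^ (((m : ℝ) - 1) * (2 / L' + ε)) * (n : ℝ) ^ r₁ := by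
      rw [← Real.rpow_add hn0]
      congr 1
      rw [hr₁]
      ring
    calc 2 * (3 * m : ℝ) * (Q : ℝ) ^ (m - 1)
        ≤ 2 * (3 * m : ℝ) * (2 ^ (m - 1) * (n : ℝ) ^ (((m : ℝ) - 1) * (2 / L' + ε))) :=
          mul_le_mul_of_nonneg_left g1 (by positivity)
      _ = (4 * (3 * m : ℝ) * 2 ^ (m - 1)) * (n : ℝ) ^ (((m : ℝ) - 1) * (2 / L' + ε)) / 2 := by
          ring
      _ ≤ (n : ℝ) ^ r₁ * (n : ℝ) ^ (((m : ℝ) - 1) * (2 / L' + ε)) / 2 := by gcongr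
      _ = (n : ℝ) ^ (ω - ε) / 2 := by
          rw [g2]
          ring
      _ ≤ w := hwge
  -- the blocks
  have hkn : 16 * k ≤ n := by exact_mod_cast e9
  have huk : u ≤ k := Nat.sub_le _ _
  have hBk : B ≤ k := Nat.div_le_self _ _
  have hBn₁ : B * n₁ ≤ n - u := Nat.mul_div_le _ _
  have hBn₁' : n - u < B * (n₁ + 1) := Nat.lt_mul_div_succ _ (by omega)
  have hn₁n : n₁ ≤ n := (Nat.div_le_self _ _).trans (Nat.sub_le _ _)
  have hn₁big : n ≤ 2 * (B * n₁) := by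
    have h1 : B * (n₁ + 1) = B * n₁ + B := by ring
    omega
  have hKw0 : 0 < K * w := Nat.mul_pos (by omega) hw1
  have hKwN : K * w * N ≤ n₁ := Nat.mul_div_le n₁ (K * w)
  have hKwN' : n₁ < K * w * (N + 1) := Nat.lt_mul_div_succ n₁ hKw0
  -- `n ≤ 4 k w (N + 1) / 2`
  have hnN : (n : ℝ) ≤ 2 * (k * w * (N + 1)) := by
    have h1 : n ≤ 2 * (B * (K * w * (N + 1))) :=
      hn₁big.trans (Nat.mul_le_mul_left _ (Nat.mul_le_mul_left _ hKwN'.le))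
    have h2 : 2 * (B * (K * w * (N + 1))) = 2 * ((B * K) * (w * (N + 1))) := by ring
    have h3 : 2 * ((B * K) * (w * (N + 1))) ≤ 2 * (k * (w * (N + 1))) :=
      Nat.mul_le_mul_left _ (Nat.mul_le_mul_right _ hBK)
    have h4 : n ≤ 2 * (k * (w * (N + 1))) := by
      rw [h2] at h1
      exact h1.trans h3
    have h5 : (n : ℝ) ≤ 2 * (k * (w * (N + 1))) := by exact_mod_cast h4
    linarith
  have hnω : (n : ℝ) = (n : ℝ) ^ (1 - ω + ε) * (n : ℝ) ^ (ω - ε) := by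
    rw [← Real.rpow_add hn0]
    have : 1 - ω + ε + (ω - ε) = 1 := by ring
    rw [this, Real.rpow_one]
  have hN1 : (n : ℝ) ^ (1 - ω + ε) ≤ 2 * k * (N + 1) := by
    have h1 : (n : ℝ) ^ (1 - ω + ε) * (n : ℝ) ^ (ω - ε) ≤
        (2 * k * (N + 1)) * (n : ℝ) ^ (ω - ε) := by
      rw [← hnω]
      calc (n : ℝ) ≤ 2 * (k * w * (N + 1)) := hnN
        _ = (2 * k * (N + 1)) * w := by ring
        _ ≤ (2 * k * (N + 1)) * (n : ℝ) ^ (ω - ε) :=
            mul_le_mul_of_nonneg_left hwle (by positivity)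
    exact le_of_mul_le_mul_right h1 (by positivity)
  have hbig : 16 * (k : ℝ) ^ 2 * (n : ℝ) ^ (ω - ε) ≤ (n : ℝ) ^ (1 - ω + ε) := by
    calc 16 * (k : ℝ) ^ 2 * (n : ℝ) ^ (ω - ε) ≤ (n : ℝ) ^ (1 / 4 : ℝ) * (n : ℝ) ^ (ω - ε) := by
          gcongr
      _ = (n : ℝ) ^ (1 / 4 + (ω - ε)) := (Real.rpow_add hn0 _ _).symm
      _ ≤ (n : ℝ) ^ (1 - ω + ε) := Real.rpow_le_rpow_of_exponent_le hn1 (by linarith)
  have hN8 : 8 * (k : ℝ) * w ≤ N + 1 := by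
    have h1 : 16 * (k : ℝ) ^ 2 * w ≤ 2 * k * (N + 1) := by
      calc 16 * (k : ℝ) ^ 2 * w ≤ 16 * (k : ℝ) ^ 2 * (n : ℝ) ^ (ω - ε) :=
            mul_le_mul_of_nonneg_left hwle (by positivity)
        _ ≤ (n : ℝ) ^ (1 - ω + ε) := hbig
        _ ≤ _ := hN1
    have h2 : (2 * k : ℝ) * (8 * k * w) ≤ (2 * k) * (N + 1) := by
      calc (2 * k : ℝ) * (8 * k * w) = 16 * (k : ℝ) ^ 2 * w := by ring
        _ ≤ _ := h1
    exact le_of_mul_le_mul_left h2 (by positivity)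
  have hN8' : 8 * k * w ≤ N + 1 := by exact_mod_cast hN8
  have hkw : k ≤ k * w := Nat.le_mul_of_pos_right _ hw1
  have hkw8 : 8 * k * w = 8 * (k * w) := by ring
  have hNpos : N / 2 ≠ 0 := by omega
  obtain ⟨q, hq, hq1, hq2⟩ := Nat.exists_prime_lt_and_le_two_mul (N / 2) hNpos
  have hqN : q ≤ N := by omega
  have hqN2 : N + 1 ≤ 2 * q := by omega
  have hKq : K * w ≤ q := by
    have h1 : K * w ≤ k * w := Nat.mul_le_mul_right _ hKk
    omega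
  have hKqn : K * w * q ≤ n₁ := (Nat.mul_le_mul_left _ hqN).trans hKwN
  have hqge : (n : ℝ) ^ (1 - ω + ε) ≤ 4 * k * q := by
    have h1 : ((N : ℝ) + 1) ≤ 2 * q := by exact_mod_cast hqN2
    calc (n : ℝ) ^ (1 - ω + ε) ≤ 2 * k * (N + 1) := hN1
      _ ≤ 2 * k * (2 * q) := mul_le_mul_of_nonneg_left h1 (by positivity)
      _ = 4 * k * q := by ring
  -- pairs with a large union
  set η : ℝ := C₂ * (n : ℝ) ^ (-E + ε * (2 * (m : ℝ) ^ 2 + 2 * m)) with hη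
  have hη0 : 0 ≤ η := by
    rw [hη]
    positivity
  have hEE : ∀ a ≤ m, ∀ j ≤ m, ∀ i ≤ a, i ≤ j → m < a + j - i →
      (3 * m : ℝ) ^ (a + j - i) * (Q : ℝ) ^ (a.choose 2 + (j.choose 2 - i.choose 2)) ≤
        η * (w : ℝ) ^ (a + j - i) := by
    intro a ha j hj i hia hij hlt
    have hexp := exponent_le (δ := 2 * ω) ha hj hia hij hlt hL'0 (by linarith)
    have e2ω : 2 * ω / 2 = ω := by ring
    rw [e2ω, ← hE] at hexp
    set v := a + j - i with hv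
    set c := a.choose 2 + (j.choose 2 - i.choose 2) with hcdef
    have hv2 : v ≤ 2 * m := by omega
    have hc2 : c ≤ 2 * m ^ 2 := by
      have h1 := choose_two_mono ha
      have h2 := choose_two_mono hj
      have h3 : 2 * m.choose 2 ≤ m ^ 2 := by
        rw [two_mul_choose_two, sq]
        exact Nat.mul_le_mul_right _ (by omega)
      omega
    have g1 : (Q : ℝ) ^ c ≤ 2 ^ c * (n : ℝ) ^ ((2 / L' + ε) * c) := by
      calc (Q : ℝ) ^ c ≤ (2 * (n : ℝ) ^ (2 / L' + ε)) ^ c :=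
            pow_le_pow_left₀ (by positivity) hQle _
        _ = 2 ^ c * (n : ℝ) ^ ((2 / L' + ε) * c) := by
            rw [mul_pow, ← Real.rpow_natCast ((n : ℝ) ^ (2 / L' + ε)), ← Real.rpow_mul hn0.le]
    have g2 : (n : ℝ) ^ ((ω - ε) * v) / 2 ^ v ≤ (w : ℝ) ^ v := by
      calc (n : ℝ) ^ ((ω - ε) * v) / 2 ^ v = ((n : ℝ) ^ (ω - ε) / 2) ^ v := by
            rw [div_pow, ← Real.rpow_natCast ((n : ℝ) ^ (ω - ε)), ← Real.rpow_mul hn0.le]
        _ ≤ (w : ℝ) ^ v := pow_le_pow_left₀ (by positivity) hwge _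
    have g3 : (n : ℝ) ^ ((2 / L' + ε) * c) ≤
        (n : ℝ) ^ (-E + ε * (2 * (m : ℝ) ^ 2 + 2 * m)) * (n : ℝ) ^ ((ω - ε) * v) := by
      rw [← Real.rpow_add hn0]
      refine Real.rpow_le_rpow_of_exponent_le hn1 ?_
      have h1 : (c : ℝ) ≤ 2 * (m : ℝ) ^ 2 := by exact_mod_cast hc2
      have h2 : (v : ℝ) ≤ 2 * m := by exact_mod_cast hv2
      have h3 : ε * (c + v) ≤ ε * (2 * (m : ℝ) ^ 2 + 2 * m) :=
        mul_le_mul_of_nonneg_left (by linarith) hε.le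
      have h4 : (2 / L' + ε) * c = 2 / L' * c + ε * c := by ring
      have h5 : (ω - ε) * v = v * ω - ε * v := by ring
      have h6 : ε * ((c : ℝ) + v) = ε * c + ε * v := by ring
      rw [h4, h5]
      linarith
    have g4 : (3 * m : ℝ) ^ v * 2 ^ c * 2 ^ v ≤ C₂ := by
      rw [hC₂]
      have h1 : (1 : ℝ) ≤ 3 * m := by linarith
      have h2 : (3 * m : ℝ) ^ v ≤ (3 * m : ℝ) ^ (2 * m) := pow_le_pow_right₀ h1 hv2
      have h3 : (2 : ℝ) ^ c * 2 ^ v ≤ 2 ^ (2 * m ^ 2 + 2 * m) := by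
        rw [← pow_add]
        exact pow_le_pow_right₀ (by norm_num) (by omega)
      calc (3 * m : ℝ) ^ v * 2 ^ c * 2 ^ v = (3 * m : ℝ) ^ v * (2 ^ c * 2 ^ v) := by ring
        _ ≤ _ := mul_le_mul h2 h3 (by positivity) (by positivity)
    calc (3 * m : ℝ) ^ v * (Q : ℝ) ^ c
        ≤ (3 * m : ℝ) ^ v * (2 ^ c * ((n : ℝ) ^ (-E + ε * (2 * (m : ℝ) ^ 2 + 2 * m)) *
          (n : ℝ) ^ ((ω - ε) * v))) := by
          refine mul_le_mul_of_nonneg_left (g1.trans ?_) (by positivity)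
          exact mul_le_mul_of_nonneg_left g3 (by positivity)
      _ = ((3 * m : ℝ) ^ v * 2 ^ c * 2 ^ v) * (n : ℝ) ^ (-E + ε * (2 * (m : ℝ) ^ 2 + 2 * m)) *
          ((n : ℝ) ^ ((ω - ε) * v) / 2 ^ v) := by
          field_simp
      _ ≤ C₂ * (n : ℝ) ^ (-E + ε * (2 * (m : ℝ) ^ 2 + 2 * m)) * (w : ℝ) ^ v := by
          gcongr
      _ = η * (w : ℝ) ^ v := by rw [hη]
  -- first error condition
  have he1 : 8 * (a : ℝ) * s * ((m + 1) ^ 2 * 2 ^ m * η) ≤ 1 := by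
    have h1 : (n : ℝ) ^ α * (n : ℝ) ^ e *
        (n : ℝ) ^ (-E + ε * (2 * (m : ℝ) ^ 2 + 2 * m)) ≤ (n : ℝ) ^ (-(1 / 8) : ℝ) := by
      rw [← Real.rpow_add hn0, ← Real.rpow_add hn0]
      refine Real.rpow_le_rpow_of_exponent_le hn1 ?_
      linarith
    calc 8 * (a : ℝ) * s * ((m + 1) ^ 2 * 2 ^ m * η)
        ≤ 8 * (n : ℝ) ^ α * (n : ℝ) ^ e * ((m + 1) ^ 2 * 2 ^ m * η) := by gcongr
      _ = (8 * ((m + 1) ^ 2 * 2 ^ m * C₂)) * ((n : ℝ) ^ α * (n : ℝ) ^ e *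
          (n : ℝ) ^ (-E + ε * (2 * (m : ℝ) ^ 2 + 2 * m))) := by
          rw [hη]
          ring
      _ ≤ (n : ℝ) ^ (1 / 8 : ℝ) * (n : ℝ) ^ (-(1 / 8) : ℝ) := by
          gcongr
      _ = 1 := by
          rw [← Real.rpow_add hn0]
          norm_num
  -- second error condition
  have hnlog : (n : ℝ) ≤ 2 ^ (Nat.log 2 n + 1) := by
    exact_mod_cast (Nat.lt_pow_succ_log_self (by norm_num) n).le
  have hsn : (s : ℝ) ≤ (n : ℝ) ^ (m + 1) := by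
    refine hs.trans ?_
    rw [← Real.rpow_natCast (n : ℝ) (m + 1)]
    refine Real.rpow_le_rpow_of_exponent_le hn1 ?_
    have h1 : 0 ≤ ((m : ℝ) ^ 2 + m - 2) / L' := div_nonneg hm22 hL'0.le
    have h2 : ((m : ℝ) + 1) * ω ≤ ((m : ℝ) + 1) * 1 :=
      mul_le_mul_of_nonneg_left (by linarith) (by positivity)
    push_cast
    linarith
  have han : (a : ℝ) ≤ n := by
    refine hale.trans ?_
    calc (n : ℝ) ^ α ≤ (n : ℝ) ^ (1 : ℝ) := Real.rpow_le_rpow_of_exponent_le hn1 hα1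
      _ = n := Real.rpow_one _
  have hKwn : K * w + 1 ≤ 2 * n := by
    have h1 : K * w ≤ q := hKq
    have h2 : q ≤ K * w * q := Nat.le_mul_of_pos_left _ hKw0
    omega
  have he2 : 8 * (a : ℝ) * s * ((K * w + 1 : ℕ) : ℝ) ^ m ≤ 3 ^ L := by
    have g1 : ((K * w + 1 : ℕ) : ℝ) ≤ 2 * n := by exact_mod_cast hKwn
    calc 8 * (a : ℝ) * s * ((K * w + 1 : ℕ) : ℝ) ^ m
        ≤ 8 * (n : ℝ) * (n : ℝ) ^ (m + 1) * (2 * n) ^ m := by gcongr
      _ = (8 * 2 ^ m) * ((n : ℝ) * (n : ℝ) ^ (m + 1) * (n : ℝ) ^ m) := by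
          rw [mul_pow]
          ring
      _ ≤ n * ((n : ℝ) * (n : ℝ) ^ (m + 1) * (n : ℝ) ^ m) := by gcongr
      _ = (n : ℝ) ^ C₁ := by
          rw [hC₁]
          ring
      _ ≤ (2 ^ (Nat.log 2 n + 1)) ^ C₁ := pow_le_pow_left₀ hn0.le hnlog _
      _ = 2 ^ L := by
          rw [hL, ← pow_mul, mul_comm C₁]
      _ ≤ 3 ^ L := pow_le_pow_left₀ (by norm_num) (by norm_num) _
  -- no clique
  have hcl : 2 * n₁ ^ l * L ^ (l.choose 2) ≤ Q ^ (l.choose 2) := by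
    have g0 : (L : ℝ) ≤ 2 * C₁ * (Real.log n + 1) := by
      have g1 : ((Nat.log 2 n : ℕ) : ℝ) ≤ 2 * Real.log n := by
        have h1 : (2 : ℝ) ^ (Nat.log 2 n) ≤ n := by
          exact_mod_cast Nat.pow_log_le_self 2 (by omega)
        have h2 := Real.log_le_log (by positivity) h1
        rw [Real.log_pow] at h2
        have h3 : (1 / 2 : ℝ) ≤ Real.log 2 := by
          have := Real.log_two_gt_d9
          linarith
        have h4 : ((Nat.log 2 n : ℕ) : ℝ) * (1 / 2) ≤ ((Nat.log 2 n : ℕ) : ℝ) * Real.log 2 :=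
          mul_le_mul_of_nonneg_left h3 (by positivity)
        linarith
      have hlogn : 0 ≤ Real.log n := Real.log_nonneg hn1
      have h0 : (0 : ℝ) ≤ C₁ := Nat.cast_nonneg _
      calc (L : ℝ) = C₁ * (((Nat.log 2 n : ℕ) : ℝ) + 1) := by
            rw [hL]
            push_cast
            ring
        _ ≤ C₁ * (2 * (Real.log n + 1)) := mul_le_mul_of_nonneg_left (by linarith) h0
        _ = 2 * C₁ * (Real.log n + 1) := by ring
    have hlch : (2 * l.choose 2 : ℝ) = l * L' := by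
      have := two_mul_choose_two l
      have h2 : ((l - 1 : ℕ) : ℝ) = (l : ℝ) - 1 := by
        rw [Nat.cast_sub (by omega)]
        norm_num
      rw [hL', ← h2]
      have h3 : (2 : ℝ) * ((l.choose 2 : ℕ) : ℝ) = ((l - 1 : ℕ) : ℝ) * l := by exact_mod_cast this
      rw [h3]
      ring
    have g1 : (n : ℝ) ^ (l : ℝ) * (n : ℝ) ^ (ε * l.choose 2) ≤ (Q : ℝ) ^ (l.choose 2) := by
      calc (n : ℝ) ^ (l : ℝ) * (n : ℝ) ^ (ε * l.choose 2) =
            ((n : ℝ) ^ (2 / L' + ε)) ^ (l.choose 2) := by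
            rw [← Real.rpow_natCast ((n : ℝ) ^ (2 / L' + ε)), ← Real.rpow_mul hn0.le,
              ← Real.rpow_add hn0]
            congr 1
            have h1 : 2 / L' * (l.choose 2 : ℝ) = l := by
              have : 2 / L' * (l.choose 2 : ℝ) = (2 * l.choose 2 : ℝ) / L' := by ring
              rw [this, hlch]
              field_simp
            rw [add_mul, h1]
        _ ≤ (Q : ℝ) ^ (l.choose 2) := pow_le_pow_left₀ (by positivity) hQge _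
    have g3 : (n₁ : ℝ) ≤ n := by exact_mod_cast hn₁n
    have g2 : (2 * n₁ ^ l * L ^ (l.choose 2) : ℝ) ≤ (Q : ℝ) ^ (l.choose 2) := by
      refine le_trans ?_ g1
      calc (2 * n₁ ^ l * L ^ (l.choose 2) : ℝ) ≤
            2 * (n : ℝ) ^ l * (2 * C₁ * (Real.log n + 1)) ^ (l.choose 2) := by gcongr
        _ = (n : ℝ) ^ l * (2 * (2 * C₁) ^ (l.choose 2) *
            (Real.log n + 1) ^ (l.choose 2)) := by
            rw [mul_pow]
            ring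
        _ ≤ (n : ℝ) ^ l * (n : ℝ) ^ (ε * l.choose 2) := by gcongr
        _ = (n : ℝ) ^ (l : ℝ) * (n : ℝ) ^ (ε * l.choose 2) := by
            rw [Real.rpow_natCast]
    exact_mod_cast g2
  -- the number of values of the existential quantifier
  have hι : Fintype.card ι₁ < a ^ B := by
    have h1 : (Fintype.card ι₁ : ℝ) < (a : ℝ) ^ B := by
      have h2 : α * k / (4 * K) ≤ α / 2 * B := by
        rw [div_le_iff₀ (by positivity)]
        have h3 : (k : ℝ) ≤ 2 * (B * K) := by exact_mod_cast hBK2.le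
        calc α * k ≤ α * (2 * (B * K)) := mul_le_mul_of_nonneg_left h3 hα0.le
          _ = α / 2 * B * (4 * K) := by ring
      have h4 : (n : ℝ) ^ (α / 2 * (B : ℝ)) = ((n : ℝ) ^ (α / 2)) ^ B := by
        rw [Real.rpow_mul hn0.le, Real.rpow_natCast]
      have h5 : (n : ℝ) ^ (α / 2) < (n : ℝ) ^ α / 2 := by
        have h6 : (n : ℝ) ^ α = (n : ℝ) ^ (α / 2) * (n : ℝ) ^ (α / 2) := by
          rw [← Real.rpow_add hn0]
          congr 1
          ring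
        rw [h6]
        have h7 : (0 : ℝ) < (n : ℝ) ^ (α / 2) := lt_of_lt_of_le (by norm_num) e4
        have h8 : 3 * (n : ℝ) ^ (α / 2) ≤ (n : ℝ) ^ (α / 2) * (n : ℝ) ^ (α / 2) :=
          mul_le_mul_of_nonneg_right e4 h7.le
        linarith
      calc (Fintype.card ι₁ : ℝ) ≤ (n : ℝ) ^ (α * k / (4 * K)) := hι₁
        _ ≤ (n : ℝ) ^ (α / 2 * B) := Real.rpow_le_rpow_of_exponent_le hn1 h2
        _ = ((n : ℝ) ^ (α / 2)) ^ B := h4
        _ < ((n : ℝ) ^ α / 2) ^ B := pow_lt_pow_left₀ h5 (by positivity) (by omega)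
        _ ≤ (a : ℝ) ^ B := pow_le_pow_left₀ (by positivity) hage _
    exact_mod_cast h1
  -- apply the finite form
  have h32 : (1 + 1 / (3 * m : ℝ)) ^ m ≤ 3 / 2 := one_add_inv_pow_le m (by omega)
  obtain ⟨e⟩ : Nonempty (((Fin B × Fin n₁) ⊕ Fin u) ↪ Fin n) := by
    rw [Function.Embedding.nonempty_iff_card_le, Fintype.card_sum, Fintype.card_prod,
      Fintype.card_fin, Fintype.card_fin, Fintype.card_fin, Fintype.card_fin]
    omega
  have hku : B * K + u = k := by omega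
  have hfin : q ^ 2 ≤ 16 * a ^ 2 * (b + 1) := by
    refine sparse_bound (K := K) (l := l) (w := w) (L := L) (Q := Q) (q := q) (n₁ := n₁) (n := n)
      (B := B) (u := u) (s := s) (m := m) (a := a) (b := b) (t₀ := k - K) hq hL1 hw1 hm2
      (Λ := 3 * m) (η := η) (by linarith) hη0 h32 hc hEE (by omega) hKq hKqn ha1 he1 he2 hcl e
      (by omega) f hf hι hι₂ ?_ hneg
    rw [hku]
    exact hpos
  have hfinR : (q : ℝ) ^ 2 ≤ 16 * (a : ℝ) ^ 2 * (b + 1) := by exact_mod_cast hfin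
  have hμ1 : (1 : ℝ) ≤ (n : ℝ) ^ μ := Real.one_le_rpow hn1 hμ0
  have h1 : ((n : ℝ) ^ (1 - ω + ε)) ^ 2 ≤ 2048 * (k : ℝ) ^ 2 * (n : ℝ) ^ (2 - 2 * ω) / 4 := by
    calc ((n : ℝ) ^ (1 - ω + ε)) ^ 2 ≤ (4 * k * q) ^ 2 :=
          pow_le_pow_left₀ (by positivity) hqge 2
      _ = 16 * (k : ℝ) ^ 2 * (q : ℝ) ^ 2 := by ring
      _ ≤ 16 * (k : ℝ) ^ 2 * (16 * ((n : ℝ) ^ α) ^ 2 * ((n : ℝ) ^ μ + (n : ℝ) ^ μ)) := by
          refine mul_le_mul_of_nonneg_left (hfinR.trans ?_) (by positivity)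
          gcongr
      _ = 2048 * (k : ℝ) ^ 2 * (((n : ℝ) ^ α) ^ 2 * (n : ℝ) ^ μ) / 4 := by ring
      _ ≤ 2048 * (k : ℝ) ^ 2 * (n : ℝ) ^ (2 - 2 * ω) / 4 := by
          have h2 : ((n : ℝ) ^ α) ^ 2 * (n : ℝ) ^ μ ≤ (n : ℝ) ^ (2 - 2 * ω) := by
            rw [← Real.rpow_natCast ((n : ℝ) ^ α) 2, ← Real.rpow_mul hn0.le, ← Real.rpow_add hn0]
            refine Real.rpow_le_rpow_of_exponent_le hn1 ?_
            push_cast
            linarith
          gcongr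
  have h3 : ((n : ℝ) ^ (1 - ω + ε)) ^ 2 = (n : ℝ) ^ (2 * ε) * (n : ℝ) ^ (2 - 2 * ω) := by
    rw [← Real.rpow_natCast ((n : ℝ) ^ (1 - ω + ε)) 2, ← Real.rpow_mul hn0.le,
      ← Real.rpow_add hn0]
    congr 1
    push_cast
    ring
  rw [h3] at h1
  have h4 : (0 : ℝ) < (n : ℝ) ^ (2 - 2 * ω) := by positivity
  have h5 : (2048 * (k : ℝ) ^ 2 + 1) * (n : ℝ) ^ (2 - 2 * ω) ≤
      (n : ℝ) ^ (2 * ε) * (n : ℝ) ^ (2 - 2 * ω) := mul_le_mul_of_nonneg_right e6 h4.le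
  have h6 : (0 : ℝ) ≤ (k : ℝ) ^ 2 * (n : ℝ) ^ (2 - 2 * ω) := by positivity
  have h7 := h5.trans h1
  linarith

end Pool.Agent.H27.WQ
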