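import Pool.Agent.H27.WQ.Asy
import Pool.Agent.H27.CN.Quant

/-!
Monotone circuits with quantified bits for `k`-clique, `k` fixed.
-/

namespace Pool.Agent.H27.WQ

open Finset Filter
open Pool.Agent.H25
open Pool.Agent.H27.CN (MonotoneCircuit Quantified weight exists_strategies monoSize_exists
  MonotoneCircuit.monoSize)

theorem main {k K l : ℕ} {μ : ℝ} (hl : 2 ≤ l) (hlK : l ≤ K) (hKk : K ≤ k) (hμ1 : 1 ≤ μ)
    (hμ2 : μ < 2) :
    ∃ n₀ : ℕ, ∀ n ≥ n₀, ∀ (s a q : ℕ) (Q : Fin q → Bool),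
      (2 : ℝ) ^ a ≤ (n : ℝ) ^ ((2 - μ) * k / (32 * K)) → (weight Q : ℝ) ≤ (n : ℝ) ^ μ →
      ∀ (C : (Fin a → Bool) → (Fin q → Bool) → MonotoneCircuit n s)
        (out : (Fin a → Bool) → (Fin q → Bool) → Fin s),
        (∀ G : SimpleGraph (Fin n), ¬ G.CliqueFree k →
          ∃ x, Quantified q Q fun y => (C x y).fn (out x y) G) →
        (∀ G : SimpleGraph (Fin n), G.CliqueFree (k - K + l) →
          ¬ ∃ x, Quantified q Q fun y => (C x y).fn (out x y) G) →
        (n : ℝ) ^ ((2 - μ) ^ 2 * ((l : ℝ) - 1) / 32 - 1 / 4) ≤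
          2 ^ (univ.filter fun i => Q i = true).card * ((s : ℝ) + 1) ^ 2 := by
  set δ : ℝ := 2 - μ with hδ
  have hδ0 : 0 < δ := by
    rw [hδ]
    linarith
  have hδ1 : δ ≤ 1 := by
    rw [hδ]
    linarith
  set L' : ℝ := (l : ℝ) - 1 with hL'
  have hL'1 : 1 ≤ L' := by
    have : (2 : ℝ) ≤ l := by exact_mod_cast hl
    rw [hL']
    linarith
  have hL'0 : 0 < L' := by linarith
  set e : ℝ := δ ^ 2 * L' / 32 - 1 / 4 with he
  rcases le_or_gt e 0 with he0 | he0
  · refine ⟨1, fun n hn s a q Q _ _ C out _ _ => ?_⟩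
    have hn1 : (1 : ℝ) ≤ n := by exact_mod_cast hn
    calc (n : ℝ) ^ e ≤ (n : ℝ) ^ (0 : ℝ) := Real.rpow_le_rpow_of_exponent_le hn1 he0
      _ = 1 * 1 ^ 2 := by
          rw [Real.rpow_zero]
          norm_num
      _ ≤ 2 ^ (univ.filter fun i => Q i = true).card * ((s : ℝ) + 1) ^ 2 := by
          have h1 : (1 : ℝ) ≤ 2 ^ (univ.filter fun i => Q i = true).card :=
            one_le_pow₀ one_le_two
          have h2 : (1 : ℝ) ^ 2 ≤ ((s : ℝ) + 1) ^ 2 :=
            pow_le_pow_left₀ zero_le_one (by linarith [Nat.cast_nonneg (α := ℝ) s]) 2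
          exact mul_le_mul h1 h2 (by norm_num) (by positivity)
  · -- the parameters
    set ω : ℝ := 3 * δ / 8 with hω
    set y : ℝ := ω * L' / 2 with hy
    have hyδ : δ * L' = 16 * y / 3 := by
      rw [hy, hω]
      ring
    have hy1 : 3 / 2 < y := by
      have h1 : 8 < δ * (δ * L') := by
        have : δ ^ 2 * L' = δ * (δ * L') := by ring
        rw [he, this] at he0
        linarith
      have h2 : δ * (δ * L') ≤ 1 * (δ * L') :=
        mul_le_mul_of_nonneg_right hδ1 (by positivity)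
      rw [hyδ] at h1 h2
      linarith
    set m : ℕ := max 2 ⌊y⌋₊ with hm
    have hm2 : 2 ≤ m := le_max_left _ _
    have hm2R : (2 : ℝ) ≤ m := by exact_mod_cast hm2
    set θ : ℝ := y - m with hθ
    have hθ1 : -1 < θ := by
      rw [hθ, hm]
      rcases le_total 2 ⌊y⌋₊ with h | h
      · rw [max_eq_right h]
        have := Nat.floor_le (a := y) (by linarith)
        linarith
      · rw [max_eq_left h]
        push_cast
        linarith
    have hθ2 : θ ≤ 1 := by
      rw [hθ, hm]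
      have h1 := (Nat.lt_floor_add_one y).le
      have h2 : (⌊y⌋₊ : ℝ) ≤ ((max 2 ⌊y⌋₊ : ℕ) : ℝ) := by
        exact_mod_cast le_max_right _ _
      linarith
    have hmy : (m : ℝ) = y - θ := by
      rw [hθ]
      ring
    have hgap0 : ((m : ℝ) - 1) * (2 / L') < ω := by
      have h1 : (m : ℝ) - 1 < y := by linarith
      calc ((m : ℝ) - 1) * (2 / L') < y * (2 / L') :=
            mul_lt_mul_of_pos_right h1 (by positivity)
        _ = ω := by
            rw [hy]
            field_simp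
    set γ : ℝ := ω - ((m : ℝ) - 1) * (2 / L') with hγ
    have hγ0 : 0 < γ := by
      rw [hγ]
      linarith
    set ε : ℝ := min (1 / (8 * (2 * (m : ℝ) ^ 2 + 2 * m))) (γ / (2 * m)) with hε
    have hε0 : 0 < ε := by
      rw [hε]
      exact lt_min (by positivity) (by positivity)
    have hε2 : ε * (2 * (m : ℝ) ^ 2 + 2 * m) ≤ 1 / 8 := by
      have h1 : ε ≤ 1 / (8 * (2 * (m : ℝ) ^ 2 + 2 * m)) := min_le_left _ _
      calc ε * (2 * (m : ℝ) ^ 2 + 2 * m) ≤
            1 / (8 * (2 * (m : ℝ) ^ 2 + 2 * m)) * (2 * (m : ℝ) ^ 2 + 2 * m) :=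
            mul_le_mul_of_nonneg_right h1 (by positivity)
        _ = 1 / 8 := by
            have : (2 * (m : ℝ) ^ 2 + 2 * m) ≠ 0 := by positivity
            field_simp
    have hgap : ((m : ℝ) - 1) * (2 / L') + m * ε < ω := by
      have h1 : ε ≤ γ / (2 * m) := min_le_right _ _
      have h2 : (m : ℝ) * ε ≤ γ / 2 := by
        calc (m : ℝ) * ε ≤ m * (γ / (2 * m)) := mul_le_mul_of_nonneg_left h1 (by positivity)
          _ = γ / 2 := by
              field_simp
      have h3 : ω = γ + ((m : ℝ) - 1) * (2 / L') := by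
        rw [hγ]
        ring
      linarith
    have hmhalf : (m : ℝ) - 3 / 2 ≤ ω * ((l : ℝ) - 1) / 2 := by
      have : ω * ((l : ℝ) - 1) / 2 = y := rfl
      rw [this]
      linarith
    have hee : e + δ / 8 + 1 / 4 ≤ ((m : ℝ) + 1) * ω - ((m : ℝ) ^ 2 + m - 2) / ((l : ℝ) - 1) := by
      show e + δ / 8 + 1 / 4 ≤ ((m : ℝ) + 1) * ω - ((m : ℝ) ^ 2 + m - 2) / L'
      have h1 : (y ^ 2 + y) / L' ≤ ((m : ℝ) + 1) * ω - ((m : ℝ) ^ 2 + m - 2) / L' := by
        have h2 : ((m : ℝ) + 1) * ω - ((m : ℝ) ^ 2 + m - 2) / L' =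
            (((m : ℝ) + 1) * (2 * y) - ((m : ℝ) ^ 2 + m - 2)) / L' := by
          rw [hy]
          field_simp
        rw [h2]
        refine div_le_div_of_nonneg_right ?_ hL'0.le
        rw [hmy]
        have h3 : 0 ≤ (1 + θ) * (2 - θ) := mul_nonneg (by linarith) (by linarith)
        nlinarith
      refine le_trans ?_ h1
      have h2 : (y ^ 2 + y) / L' = 9 * δ ^ 2 * L' / 256 + 3 * δ / 16 := by
        rw [hy, hω]
        field_simp
        ring
      rw [h2, he]
      have h3 : 0 ≤ δ ^ 2 * L' := by positivity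
      linarith
    obtain ⟨n₀, hn₀⟩ := eventually_atTop.1 ((core (k := k) (K := K) (l := l) (m := m) (μ := μ)
      (ω := ω) (α := δ / 8) (ε := ε) (e := e) hl hlK hKk hm2 (by linarith) (by linarith)
      (by linarith) (by positivity) (by rw [hω]; linarith) (by rw [hω, hδ]; linarith) hmhalf hε0
      hgap hε2 hee).and (eventually_ge_atTop 1))
    refine ⟨n₀, fun n hn s a q Q ha hQ C out hpos hneg => ?_⟩
    obtain ⟨h3, hn1⟩ := hn₀ n hn
    by_contra hcon
    push Not at hcon
    obtain ⟨S, X, hS, hX, F, h4, h5, h6⟩ := exists_strategies q Q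
    have key : ∀ G : SimpleGraph (Fin n),
        (∃ i : Fin a → Bool, ∀ σ : S, ∃ x : X, (C i (F σ x)).fn (out i (F σ x)) G) ↔
          ∃ x, Quantified q Q fun y => (C x y).fn (out x y) G := by
      intro G
      constructor
      · rintro ⟨i, hi⟩
        exact ⟨i, (h6 _).2 hi⟩
      · rintro ⟨i, hi⟩
        exact ⟨i, (h6 _).1 hi⟩
    refine h3 (Fin a → Bool) S (Fintype.card X * (s * (s + 1)) + 1) (weight Q)
      (fun i σ G => ∃ x, (C i (F σ x)).fn (out i (F σ x)) G) ?_
      (fun i σ => monoSize_exists fun x => (C i (F σ x)).monoSize (out i (F σ x))) ?_ h4 hQ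
      (fun G hG => (key G).2 (hpos G hG)) (fun G hG h => hneg G hG ((key G).1 h))
    · rw [h5]
      refine le_trans ?_ hcon.le
      have h7 : (1 : ℝ) ≤ 2 ^ (univ.filter fun i => Q i = true).card := one_le_pow₀ one_le_two
      push_cast
      have h8 : (0 : ℝ) ≤ s := Nat.cast_nonneg _
      have h9 : (1 : ℝ) * 1 ≤ 2 ^ (univ.filter fun i => Q i = true).card * ((s : ℝ) + 1) :=
        mul_le_mul h7 (by linarith) zero_le_one (by positivity)
      have h10 : 2 ^ (univ.filter fun i => Q i = true).card * ((s : ℝ) + 1) ^ 2 =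
          2 ^ (univ.filter fun i => Q i = true).card * (s * ((s : ℝ) + 1)) +
          2 ^ (univ.filter fun i => Q i = true).card * ((s : ℝ) + 1) := by ring
      rw [h10]
      linarith
    · rw [Fintype.card_fun, Fintype.card_bool, Fintype.card_fin]
      push_cast
      have h7 : δ / 8 * k / (4 * K) = δ * k / (32 * K) := by
        field_simp
        ring
      rw [h7]
      exact ha

end Pool.Agent.H27.WQ
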